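import Pool.Agent.X238.Fib.Sem

/-!
# The finite test is primitive recursive
-/

namespace Pool.Agent.X238.Fib

open Primrec

section general

variable {α β : Type*} [Primcodable α] [Primcodable β]

theorem all_lt {R : ℕ → α → Prop} (hf : PrimrecRel R) : PrimrecRel fun n y ↦ ∀ x < n, R x y :=
  (hf.forall_mem_list.comp (list_range.comp fst) snd).of_eq (by simp)

end general

theorem prim_prods : Primrec₂ prods := by
  have h : Primrec₂ fun (X : List (W × W)) (n : ℕ) =>
      (Nat.rec X (fun _ ih => ih ++
        ih.flatMap (fun p => X.map (fun g => (p.1 ++ g.1, p.2 ++ g.2)))) n : List (W × W)) := by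
    refine Primrec.nat_rec (f := fun X : List (W × W) => X)
      (g := fun (X : List (W × W)) (q : ℕ × List (W × W)) => q.2 ++
        q.2.flatMap (fun p => X.map (fun g => (p.1 ++ g.1, p.2 ++ g.2)))) Primrec.id ?_
    have h1 : Primrec₂ fun (a : List (W × W) × ℕ × List (W × W)) (p : W × W) =>
        a.1.map (fun g => (p.1 ++ g.1, p.2 ++ g.2)) := by
      refine Primrec.list_map (fst.comp fst) ?_
      exact (Primrec.pair (list_append.comp (fst.comp (snd.comp fst)) (fst.comp snd))
        (list_append.comp (snd.comp (snd.comp fst)) (snd.comp snd))).to₂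
    exact (list_append.comp (snd.comp snd)
      (Primrec.list_flatMap (snd.comp snd) h1)).to₂
  refine h.of_eq fun X n => ?_
  induction n with
  | zero => rfl
  | succ n ih => simp only [prods, ← ih]

theorem prim_mem : PrimrecRel fun (p : W × W) (L : List (W × W)) => p ∈ L := by
  have h : PrimrecRel fun (L : List (W × W)) (p : W × W) => ∃ q ∈ L, q = p :=
    PrimrecRel.exists_mem_list (R := fun q p => q = p) Primrec.eq
  exact (h.comp snd fst).of_eq (by simp)

theorem prim_loc : PrimrecPred fun y : List (W × W) × W × W => Loc y.1 y.2.1 y.2.2 := by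
  -- innermost: index i, data (p, (X, r, r'))
  have h1 : PrimrecRel fun (i : ℕ) (z : (W × W) × List (W × W) × W × W) =>
      (z.1.2.drop i).take z.2.2.1.length = z.2.2.1 →
        (z.1.1, z.1.2.take i ++ (z.2.2.2 ++ (z.1.2.drop i).drop z.2.2.1.length)) ∈
          prods z.2.1 z.1.1.length := by
    have hp2 : Primrec fun z : ℕ × (W × W) × List (W × W) × W × W => z.2.1.2 :=
      snd.comp (fst.comp snd)
    have hdrop : Primrec fun z : ℕ × (W × W) × List (W × W) × W × W => z.2.1.2.drop z.1 :=
      Primrec.list_drop.comp fst hp2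
    have hr : Primrec fun z : ℕ × (W × W) × List (W × W) × W × W => z.2.2.2.1 :=
      fst.comp (snd.comp (snd.comp snd))
    have hrl : Primrec fun z : ℕ × (W × W) × List (W × W) × W × W => z.2.2.2.1.length :=
      list_length.comp hr
    have hA : PrimrecPred fun z : ℕ × (W × W) × List (W × W) × W × W =>
        (z.2.1.2.drop z.1).take z.2.2.2.1.length = z.2.2.2.1 :=
      Primrec.eq.comp (Primrec.list_take.comp hrl hdrop) hr
    have hB : PrimrecPred fun z : ℕ × (W × W) × List (W × W) × W × W =>
        (z.2.1.1, z.2.1.2.take z.1 ++ (z.2.2.2.2 ++ (z.2.1.2.drop z.1).drop z.2.2.2.1.length)) ∈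
          prods z.2.2.1 z.2.1.1.length := by
      refine prim_mem.comp ?_ ?_
      · refine Primrec.pair (fst.comp (fst.comp snd)) ?_
        refine list_append.comp (Primrec.list_take.comp fst hp2) ?_
        exact list_append.comp (snd.comp (snd.comp (snd.comp snd)))
          (Primrec.list_drop.comp hrl hdrop)
      · exact prim_prods.comp (fst.comp (snd.comp snd)) (list_length.comp (fst.comp (fst.comp snd)))
    exact (hA.not.or hB).of_eq (fun z => imp_iff_not_or.symm)
  have h2 : PrimrecRel fun (p : W × W) (y : List (W × W) × W × W) =>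
      ∀ i < p.2.length + 1, (p.2.drop i).take y.2.1.length = y.2.1 →
        (p.1, p.2.take i ++ (y.2.2 ++ (p.2.drop i).drop y.2.1.length)) ∈ prods y.1 p.1.length :=
    (all_lt h1).comp (f := fun a : (W × W) × List (W × W) × W × W => a.1.2.length + 1)
      (succ.comp (list_length.comp (snd.comp fst))) .id
  exact h2.forall_mem_list.comp
    (prim_prods.comp fst (list_length.comp (fst.comp snd))) .id

theorem prim_check : PrimrecPred Check := by
  -- q, (g, X)
  have h1 : PrimrecRel fun (q : W × W) (z : (W × W) × List (W × W)) =>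
      q.1 = z.1.1 → Loc z.2 z.1.2 q.2 ∧ Loc z.2 q.2 z.1.2 := by
    have hA : PrimrecPred fun z : (W × W) × (W × W) × List (W × W) => z.1.1 = z.2.1.1 :=
      Primrec.eq.comp (fst.comp fst) (fst.comp (fst.comp snd))
    have hB : PrimrecPred fun z : (W × W) × (W × W) × List (W × W) =>
        Loc z.2.2 z.2.1.2 z.1.2 ∧ Loc z.2.2 z.1.2 z.2.1.2 := by
      refine PrimrecPred.and ?_ ?_
      · exact prim_loc.comp (Primrec.pair (snd.comp snd)
          (Primrec.pair (snd.comp (fst.comp snd)) (snd.comp fst)))
      · exact prim_loc.comp (Primrec.pair (snd.comp snd)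
          (Primrec.pair (snd.comp fst) (snd.comp (fst.comp snd))))
    exact (hA.not.or hB).of_eq (fun z => imp_iff_not_or.symm)
  have h2 : PrimrecRel fun (g : W × W) (X : List (W × W)) =>
      ∀ q ∈ prods X g.1.length, q.1 = g.1 → Loc X g.2 q.2 ∧ Loc X q.2 g.2 :=
    h1.forall_mem_list.comp
      (f := fun a : (W × W) × List (W × W) => prods a.2 a.1.1.length)
      (prim_prods.comp snd (list_length.comp (fst.comp fst))) .id
  exact h2.forall_mem_list.comp (f := fun X : List (W × W) => X) .id .id

theorem prim_wfl : PrimrecPred fun i : ℕ × ℕ × List (W × W) => WFL i.1 i.2.1 i.2.2 := by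
  have hlt : PrimrecRel fun (i n : ℕ) => i < n := nat_lt
  have h1 : PrimrecRel fun (g : W × W) (y : ℕ × ℕ × List (W × W)) =>
      (g.1 ≠ [] ∧ g.2 ≠ []) ∧ (∀ i ∈ g.1, i < y.1) ∧ ∀ i ∈ g.2, i < y.2.1 := by
    refine PrimrecPred.and (PrimrecPred.and ?_ ?_) (PrimrecPred.and ?_ ?_)
    · exact (Primrec.eq.comp (fst.comp fst) (const [])).not
    · exact (Primrec.eq.comp (snd.comp fst) (const [])).not
    · exact hlt.forall_mem_list.comp (fst.comp fst) (fst.comp snd)
    · exact hlt.forall_mem_list.comp (snd.comp fst) (fst.comp (snd.comp snd))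
  exact h1.forall_mem_list.comp (snd.comp snd) .id

theorem prim_subl : PrimrecPred fun i : ℕ × ℕ × List (W × W) => SubL i.1 i.2.1 i.2.2 := by
  have hs : Primrec fun i : ℕ => [i] := list_cons.comp .id (const [])
  have h1 : PrimrecRel fun (i : ℕ) (X : List (W × W)) => ∃ g ∈ X, g.1 = [i] := by
    have : PrimrecRel fun (g : W × W) (i : ℕ) => g.1 = [i] :=
      Primrec.eq.comp (fst.comp fst) (hs.comp snd)
    exact this.exists_mem_list.comp snd fst
  have h2 : PrimrecRel fun (i : ℕ) (X : List (W × W)) => ∃ g ∈ X, g.2 = [i] := by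
    have : PrimrecRel fun (g : W × W) (i : ℕ) => g.2 = [i] :=
      Primrec.eq.comp (snd.comp fst) (hs.comp snd)
    exact this.exists_mem_list.comp snd fst
  refine PrimrecPred.and ?_ ?_
  · exact (all_lt h1).comp fst (snd.comp snd)
  · exact (all_lt h2).comp (fst.comp snd) (snd.comp snd)

theorem prim_main : PrimrecPred fun i : ℕ × ℕ × List (List ℕ × List ℕ) =>
    WF i.1 i.2.1 i.2.2 ∧ IsSubdirect (semi i.1 i.2.1 i.2.2) ∧ IsFiber (semi i.1 i.2.1 i.2.2) :=
  (prim_wfl.and (prim_subl.and (prim_check.comp (snd.comp snd)))).of_eq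
    fun i => (main_iff i.1 i.2.1 i.2.2).symm

end Pool.Agent.X238.Fib
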