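import Mathlib

/-!
# Products of pairs of words and the local test

All words are lists of natural numbers.  `X` is a finite list of pairs of nonempty words.
-/

namespace Pool.Agent.X238.Fib

abbrev W := List ℕ

/-- concatenation of the first components -/
def cat1 (L : List (W × W)) : W := (L.map Prod.fst).flatten

/-- concatenation of the second components -/
def cat2 (L : List (W × W)) : W := (L.map Prod.snd).flatten

@[simp] theorem cat1_nil : cat1 [] = [] := rfl
@[simp] theorem cat2_nil : cat2 [] = [] := rfl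
@[simp] theorem cat1_cons (g L) : cat1 (g :: L) = g.1 ++ cat1 L := by simp [cat1]
@[simp] theorem cat2_cons (g L) : cat2 (g :: L) = g.2 ++ cat2 L := by simp [cat2]
@[simp] theorem cat1_append (L M) : cat1 (L ++ M) = cat1 L ++ cat1 M := by simp [cat1]
@[simp] theorem cat2_append (L M) : cat2 (L ++ M) = cat2 L ++ cat2 M := by simp [cat2]

/-- the pair of words is a nonempty product of listed pairs -/
def Rel (X : List (W × W)) (u v : W) : Prop :=
  ∃ L : List (W × W), L ≠ [] ∧ (∀ g ∈ L, g ∈ X) ∧ u = cat1 L ∧ v = cat2 L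

theorem Rel.single {X : List (W × W)} {u v : W} (h : (u, v) ∈ X) : Rel X u v :=
  ⟨[(u, v)], by simp, by simpa using h, by simp, by simp⟩

theorem Rel.mul {X : List (W × W)} {u v u' v' : W} (h : Rel X u v) (h' : Rel X u' v') :
    Rel X (u ++ u') (v ++ v') := by
  obtain ⟨L, hL, hX, rfl, rfl⟩ := h
  obtain ⟨M, hM, hY, rfl, rfl⟩ := h'
  refine ⟨L ++ M, by simp [hL], ?_, by simp, by simp⟩
  intro g hg
  rcases List.mem_append.1 hg with h | h
  · exact hX g h
  · exact hY g h

/-- all products of at most `n + 1` listed pairs -/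
def prods (X : List (W × W)) : ℕ → List (W × W)
  | 0 => X
  | n + 1 => prods X n ++
      (prods X n).flatMap (fun p => X.map (fun g => (p.1 ++ g.1, p.2 ++ g.2)))

theorem mem_prods {X : List (W × W)} {n : ℕ} {p : W × W} :
    p ∈ prods X n ↔ ∃ L : List (W × W), L ≠ [] ∧ L.length ≤ n + 1 ∧ (∀ g ∈ L, g ∈ X) ∧
      p = (cat1 L, cat2 L) := by
  induction n generalizing p with
  | zero =>
    constructor
    · intro h
      exact ⟨[p], by simp, by simp, by simpa [prods] using h, by simp⟩
    · rintro ⟨L, hL, hl, hX, rfl⟩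
      match L, hL, hl, hX with
      | [g], _, _, hX => simpa [prods] using hX g (by simp)
      | g :: g' :: L, _, hl, _ => simp at hl
  | succ n ih =>
    simp only [prods, List.mem_append, List.mem_flatMap, List.mem_map]
    constructor
    · rintro (h | ⟨q, hq, g, hg, rfl⟩)
      · obtain ⟨L, hL, hl, hX, e⟩ := ih.1 h
        exact ⟨L, hL, by omega, hX, e⟩
      · obtain ⟨L, hL, hl, hX, rfl⟩ := ih.1 hq
        refine ⟨L ++ [g], by simp, by simp; omega, ?_, by simp⟩
        intro g' hg'
        rcases List.mem_append.1 hg' with h | h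
        · exact hX g' h
        · simp at h; subst h; exact hg
    · rintro ⟨L, hL, hl, hX, rfl⟩
      by_cases h : L.length ≤ n + 1
      · left
        exact ih.2 ⟨L, hL, h, hX, rfl⟩
      · right
        rcases List.eq_nil_or_concat L with h0 | ⟨M, g, rfl⟩
        · exact absurd h0 hL
        · have hM : M ≠ [] := by
            rintro rfl
            simp at h
          refine ⟨(cat1 M, cat2 M), ih.2 ⟨M, hM, ?_, ?_, rfl⟩, g, hX g (by simp), by simp⟩
          · simp at hl; omega
          · intro g' hg'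
            exact hX g' (by simp [hg'])

theorem length_le_cat1 {X : List (W × W)} (hX : ∀ g ∈ X, g.1 ≠ []) (L : List (W × W))
    (hL : ∀ g ∈ L, g ∈ X) : L.length ≤ (cat1 L).length := by
  induction L with
  | nil => simp
  | cons g L ih =>
    have h1 := ih (fun g hg => hL g (by simp [hg]))
    have h2 : 0 < g.1.length := List.length_pos_iff.2 (hX g (hL g (by simp)))
    simp
    omega

theorem rel_of_prods {X : List (W × W)} {n : ℕ} {u v : W} (h : (u, v) ∈ prods X n) :
    Rel X u v := by
  obtain ⟨L, hL, _, hX, e⟩ := mem_prods.1 h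
  simp only [Prod.mk.injEq] at e
  exact ⟨L, hL, hX, e.1, e.2⟩

theorem rel_iff {X : List (W × W)} (hX : ∀ g ∈ X, g.1 ≠ []) {u v : W} :
    Rel X u v ↔ (u, v) ∈ prods X u.length := by
  constructor
  · rintro ⟨L, hL, hLX, rfl, rfl⟩
    exact mem_prods.2 ⟨L, hL, by have := length_le_cat1 hX L hLX; omega, hLX, rfl⟩
  · exact rel_of_prods

/-- a covering prefix with few blocks -/
theorem cover {L : List (W × W)} (hL : ∀ g ∈ L, g.2 ≠ []) {z y : W} (h : cat2 L = z ++ y) :
    ∃ L2 L3 : List (W × W), ∃ y' : W, L = L2 ++ L3 ∧ cat2 L2 = z ++ y' ∧ y = y' ++ cat2 L3 ∧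
      L2.length ≤ z.length := by
  induction L generalizing z with
  | nil =>
    simp only [cat2_nil] at h
    have h' := List.append_eq_nil_iff.1 h.symm
    obtain ⟨rfl, rfl⟩ := h'
    exact ⟨[], [], [], by simp, by simp, by simp, by simp⟩
  | cons g L ih =>
    have hg : 0 < g.2.length := List.length_pos_iff.2 (hL g (by simp))
    have hL' : ∀ g ∈ L, g.2 ≠ [] := fun g hg => hL g (by simp [hg])
    simp only [cat2_cons] at h
    rcases List.append_eq_append_iff.1 h with ⟨a, ha, hb⟩ | ⟨c, hc, hd⟩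
    · -- z = g.2 ++ a, cat2 L = a ++ y
      obtain ⟨L2, L3, y', h1, h2, h3, h4⟩ := ih hL' hb
      refine ⟨g :: L2, L3, y', by simp [h1], by simp [h2, ha], h3, ?_⟩
      simp [ha]; omega
    · -- g.2 = z ++ c, y = c ++ cat2 L
      by_cases hz : z = []
      · subst hz
        exact ⟨[], g :: L, [], by simp, by simp, by simpa using h.symm, by simp⟩
      · refine ⟨[g], L, c, by simp, by simp [hc], hd, ?_⟩
        have := List.length_pos_iff.2 hz
        simp; omega

/-- the blocks touching a factor -/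
theorem touch {L : List (W × W)} (hL : ∀ g ∈ L, g.2 ≠ []) {x r y : W} (hr : r ≠ [])
    (h : cat2 L = x ++ r ++ y) :
    ∃ L1 L2 L3 : List (W × W), ∃ x' y' : W, L = L1 ++ L2 ++ L3 ∧ L2 ≠ [] ∧
      cat2 L2 = x' ++ r ++ y' ∧ x = cat2 L1 ++ x' ∧ y = y' ++ cat2 L3 ∧
      L2.length ≤ r.length := by
  induction L generalizing x with
  | nil =>
    simp [hr] at h
  | cons g L ih =>
    have hg : 0 < g.2.length := List.length_pos_iff.2 (hL g (by simp))
    have hL' : ∀ g ∈ L, g.2 ≠ [] := fun g hg => hL g (by simp [hg])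
    have hrpos := List.length_pos_iff.2 hr
    rw [cat2_cons, List.append_assoc] at h
    rcases List.append_eq_append_iff.1 h with ⟨a, ha, hb⟩ | ⟨c, hc, hd⟩
    · -- x = g.2 ++ a, cat2 L = a ++ (r ++ y)
      rw [← List.append_assoc] at hb
      obtain ⟨L1, L2, L3, x', y', h1, h2, h3, h4, h5, h6⟩ := ih hL' hb
      exact ⟨g :: L1, L2, L3, x', y', by simp [h1], h2, h3, by simp [ha, h4], h5, h6⟩
    · -- g.2 = x ++ c, r ++ y = c ++ cat2 L
      by_cases hc0 : c = []
      · subst hc0
        -- then x = g.2 ; treat as first case with a = []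
        have hx : x = g.2 := by simpa using hc.symm
        have hb : cat2 L = [] ++ r ++ y := by simpa using hd.symm
        obtain ⟨L1, L2, L3, x', y', h1, h2, h3, h4, h5, h6⟩ := ih hL' hb
        exact ⟨g :: L1, L2, L3, x', y', by simp [h1], h2, h3, by
          rw [cat2_cons, List.append_assoc, ← h4]; simp [hx], h5, h6⟩
      · have hcpos := List.length_pos_iff.2 hc0
        rcases List.append_eq_append_iff.1 hd with ⟨a, ha, hb⟩ | ⟨d, hd1, hd2⟩
        · -- c = r ++ a, y = a ++ cat2 L
          exact ⟨[], [g], L, x, a, by simp, by simp, by simp [hc, ha], by simp, hb, by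
            simp; omega⟩
        · -- r = c ++ d, cat2 L = d ++ y
          obtain ⟨L2, L3, y', h1, h2, h3, h4⟩ := cover hL' hd2
          refine ⟨[], g :: L2, L3, x, y', by simp [h1], by simp, by simp [hc, hd1, h2], by simp,
            h3, ?_⟩
          simp [hd1]; omega

/-- the local test for replacing `r` by `r'` -/
def Loc (X : List (W × W)) (r r' : W) : Prop :=
  ∀ p ∈ prods X r.length, ∀ i < p.2.length + 1, (p.2.drop i).take r.length = r →
    (p.1, p.2.take i ++ (r' ++ (p.2.drop i).drop r.length)) ∈ prods X p.1.length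

theorem loc_use {X : List (W × W)} (h2 : ∀ g ∈ X, g.2 ≠ []) {r r' : W} (hr : r ≠ [])
    (hl : Loc X r r') {u x y : W} (h : Rel X u (x ++ r ++ y)) : Rel X u (x ++ r' ++ y) := by
  obtain ⟨L, hL, hLX, rfl, he⟩ := h
  obtain ⟨L1, L2, L3, x', y', rfl, hne, e2, ex, ey, hlen⟩ :=
    touch (fun g hg => h2 g (hLX g hg)) hr he.symm
  have hp : (cat1 L2, cat2 L2) ∈ prods X r.length :=
    mem_prods.2 ⟨L2, hne, by omega, fun g hg => hLX g (by simp [hg]), rfl⟩
  have := hl _ hp x'.length (by simp [e2]) (by simp [e2])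
  simp only [e2, List.append_assoc, List.take_left', List.drop_left'] at this
  obtain ⟨M, hM, hMX, e1, e2'⟩ := rel_of_prods this
  refine ⟨L1 ++ M ++ L3, by simp [hM], ?_, ?_, ?_⟩
  · intro g hg
    simp only [List.append_assoc, List.mem_append] at hg
    rcases hg with hg | hg | hg
    · exact hLX g (by simp [hg])
    · exact hMX g hg
    · exact hLX g (by simp [hg])
  · simp [e1]
  · simp only [cat2_append, ← e2', ex, ey, List.append_assoc]

theorem loc_of {X : List (W × W)} (h1 : ∀ g ∈ X, g.1 ≠ []) {r r' : W}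
    (hl : ∀ u x y, Rel X u (x ++ r ++ y) → Rel X u (x ++ r' ++ y)) : Loc X r r' := by
  intro p hp i hi he
  have hpe : p.2 = p.2.take i ++ r ++ (p.2.drop i).drop r.length := by
    conv_lhs => rw [← List.take_append_drop i p.2, ← List.take_append_drop r.length (p.2.drop i),
      he]
    simp
  have h := hl p.1 (p.2.take i) ((p.2.drop i).drop r.length) (by
    rw [← hpe]; exact rel_of_prods hp)
  rw [rel_iff h1, List.append_assoc] at h
  exact h

/-- the finite test -/
def Check (X : List (W × W)) : Prop :=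
  ∀ g ∈ X, ∀ q ∈ prods X g.1.length, q.1 = g.1 → Loc X g.2 q.2 ∧ Loc X q.2 g.2

/-- closure under zigzags -/
def ZZ (X : List (W × W)) : Prop :=
  ∀ u v u' v', Rel X u v → Rel X u' v → Rel X u' v' → Rel X u v'

/-- words nonempty, and every letter that occurs is itself a component of a listed pair -/
structure Good (X : List (W × W)) : Prop where
  ne1 : ∀ g ∈ X, g.1 ≠ []
  ne2 : ∀ g ∈ X, g.2 ≠ []
  let1 : ∀ g ∈ X, ∀ i ∈ g.1, ∃ g' ∈ X, g'.1 = [i]
  let2 : ∀ g ∈ X, ∀ i ∈ g.2, ∃ g' ∈ X, g'.2 = [i]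

/-- a word all of whose letters are good has a partner -/
theorem partner1 {X : List (W × W)} (w : W) (hw : ∀ i ∈ w, ∃ g ∈ X, g.1 = [i]) :
    ∃ L : List (W × W), (∀ g ∈ L, g ∈ X) ∧ cat1 L = w := by
  induction w with
  | nil => exact ⟨[], by simp, by simp⟩
  | cons i w ih =>
    obtain ⟨L, hL, e⟩ := ih (fun i hi => hw i (by simp [hi]))
    obtain ⟨g, hg, eg⟩ := hw i (by simp)
    exact ⟨g :: L, by simpa [hg] using hL, by simp [eg, e]⟩

theorem partner2 {X : List (W × W)} (w : W) (hw : ∀ i ∈ w, ∃ g ∈ X, g.2 = [i]) :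
    ∃ L : List (W × W), (∀ g ∈ L, g ∈ X) ∧ cat2 L = w := by
  induction w with
  | nil => exact ⟨[], by simp, by simp⟩
  | cons i w ih =>
    obtain ⟨L, hL, e⟩ := ih (fun i hi => hw i (by simp [hi]))
    obtain ⟨g, hg, eg⟩ := hw i (by simp)
    exact ⟨g :: L, by simpa [hg] using hL, by simp [eg, e]⟩

theorem mem_cat1 {L : List (W × W)} {i : ℕ} (h : i ∈ cat1 L) : ∃ g ∈ L, i ∈ g.1 := by
  simp only [cat1, List.mem_flatten, List.mem_map] at h
  obtain ⟨l, ⟨g, hg, rfl⟩, hi⟩ := h
  exact ⟨g, hg, hi⟩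

theorem mem_cat2 {L : List (W × W)} {i : ℕ} (h : i ∈ cat2 L) : ∃ g ∈ L, i ∈ g.2 := by
  simp only [cat2, List.mem_flatten, List.mem_map] at h
  obtain ⟨l, ⟨g, hg, rfl⟩, hi⟩ := h
  exact ⟨g, hg, hi⟩

theorem check_of_zz {X : List (W × W)} (hX : Good X) (h : ZZ X) : Check X := by
  have key : ∀ g r r' : W, Rel X g r → Rel X g r' →
      ∀ u x y, Rel X u (x ++ r ++ y) → Rel X u (x ++ r' ++ y) := by
    intro g r r' hr hr' u x y hu
    have hlet : ∀ i ∈ x ++ r ++ y, ∃ g ∈ X, g.2 = [i] := by
      intro i hi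
      obtain ⟨L, _, hL, _, e⟩ := hu
      rw [e] at hi
      obtain ⟨g, hg, hig⟩ := mem_cat2 hi
      exact hX.let2 g (hL g hg) i hig
    obtain ⟨Lx, hLx, ex⟩ := partner2 x (fun i hi => hlet i (by simp [hi]))
    obtain ⟨Ly, hLy, ey⟩ := partner2 y (fun i hi => hlet i (by simp [hi]))
    have aux : ∀ s, Rel X g s → Rel X (cat1 Lx ++ g ++ cat1 Ly) (x ++ s ++ y) := by
      rintro s ⟨L, hL, hLX, e1, e2⟩
      refine ⟨Lx ++ L ++ Ly, by simp [hL], ?_, by simp [e1], by simp [e2, ex, ey]⟩
      intro g hg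
      simp only [List.append_assoc, List.mem_append] at hg
      rcases hg with hg | hg | hg
      · exact hLx g hg
      · exact hLX g hg
      · exact hLy g hg
    exact h _ _ _ _ hu (aux r hr) (aux r' hr')
  intro g hg q hq e
  have h1 : Rel X g.1 g.2 := Rel.single hg
  have h2 : Rel X g.1 q.2 := by
    rw [← e]; exact rel_of_prods hq
  exact ⟨loc_of hX.ne1 (key _ _ _ h1 h2), loc_of hX.ne1 (key _ _ _ h2 h1)⟩

theorem cat_ne_nil {X : List (W × W)} (hX : ∀ g ∈ X, g.2 ≠ []) {L : List (W × W)}
    (hL : L ≠ []) (hLX : ∀ g ∈ L, g ∈ X) : cat2 L ≠ [] := by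
  cases L with
  | nil => exact absurd rfl hL
  | cons g L =>
    have := hX g (hLX g (by simp))
    simp [this]

theorem zz_of_check {X : List (W × W)} (hX : Good X) (h : Check X) : ZZ X := by
  classical
  -- a chosen partner of each letter
  let η : ℕ → W := fun i => if hi : ∃ g ∈ X, g.1 = [i] then hi.choose.2 else []
  have hη : ∀ i, (∃ g ∈ X, g.1 = [i]) → ([i], η i) ∈ X := by
    intro i hi
    have := hi.choose_spec
    simp only [η, dif_pos hi]
    have e : ([i], hi.choose.2) = hi.choose := Prod.ext this.2.symm rfl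
    exact e ▸ this.1
  let H : W → W := fun w => w.flatMap η
  have hH : ∀ w : W, w ≠ [] → (∀ i ∈ w, ∃ g ∈ X, g.1 = [i]) → Rel X w (H w) := by
    intro w hw hlet
    refine ⟨w.map (fun i => ([i], η i)), by simpa using hw, ?_, ?_, ?_⟩
    · intro g hg
      obtain ⟨i, hi, rfl⟩ := List.mem_map.1 hg
      exact hη i (hlet i hi)
    · clear hw hlet
      induction w with
      | nil => simp
      | cons i w ih => simp [← ih]
    · clear hw hlet
      induction w with
      | nil => simp [H]
      | cons i w ih =>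
        simp only [List.map_cons, cat2_cons, ← ih]
        simp [H]
  have hHapp : ∀ a b : W, H (a ++ b) = H a ++ H b := by
    intro a b; simp [H]
  -- local moves for the listed pairs
  have hloc : ∀ g ∈ X, Loc X g.2 (H g.1) ∧ Loc X (H g.1) g.2 ∧ H g.1 ≠ [] := by
    intro g hg
    have hr : Rel X g.1 (H g.1) := hH g.1 (hX.ne1 g hg) (hX.let1 g hg)
    have h1 : (g.1, H g.1) ∈ prods X g.1.length := (rel_iff hX.ne1).1 hr
    have h2 := h g hg _ h1 rfl
    obtain ⟨L, hL, hLX, _, e⟩ := hr
    exact ⟨h2.1, h2.2, by rw [e]; exact cat_ne_nil hX.ne2 hL hLX⟩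
  have moveA : ∀ (L : List (W × W)), (∀ g ∈ L, g ∈ X) → ∀ u x y,
      Rel X u (x ++ cat2 L ++ y) → Rel X u (x ++ H (cat1 L) ++ y) := by
    intro L
    induction L with
    | nil => intro _ u x y h; simpa [H] using h
    | cons g L ih =>
      intro hL u x y h
      have hg := hL g (by simp)
      have h1 : Rel X u (x ++ g.2 ++ (cat2 L ++ y)) := by simpa using h
      have h2 := loc_use hX.ne2 (hX.ne2 g hg) (hloc g hg).1 h1
      have h3 := ih (fun g hg => hL g (by simp [hg])) u (x ++ H g.1) y (by simpa using h2)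
      simpa [hHapp] using h3
  have moveB : ∀ (L : List (W × W)), (∀ g ∈ L, g ∈ X) → ∀ u x y,
      Rel X u (x ++ H (cat1 L) ++ y) → Rel X u (x ++ cat2 L ++ y) := by
    intro L
    induction L with
    | nil => intro _ u x y h; simpa [H] using h
    | cons g L ih =>
      intro hL u x y h
      have hg := hL g (by simp)
      have h1 : Rel X u (x ++ H g.1 ++ (H (cat1 L) ++ y)) := by simpa [hHapp] using h
      have h2 := loc_use hX.ne2 (hloc g hg).2.2 (hloc g hg).2.1 h1
      have h3 := ih (fun g hg => hL g (by simp [hg])) u (x ++ g.2) y (by simpa using h2)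
      simpa using h3
  intro u v u' v' huv hu'v hu'v'
  obtain ⟨L, hL, hLX, rfl, rfl⟩ := hu'v
  obtain ⟨M, hM, hMX, e1, rfl⟩ := hu'v'
  have h1 := moveA L hLX u [] [] (by simpa using huv)
  rw [e1] at h1
  have h2 := moveB M hMX u [] [] h1
  simpa using h2

theorem check_iff {X : List (W × W)} (hX : Good X) : Check X ↔ ZZ X :=
  ⟨zz_of_check hX, check_of_zz hX⟩

end Pool.Agent.X238.Fib
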