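import Mathlib

/-!
# Instances, subdirect products and fiber products of free semigroups
-/

namespace Pool.Agent.X238.Fib

/-- The word `w` over the alphabet `{0, …, n-1}` written as a list of natural numbers. -/
def code {n : ℕ} (w : FreeSemigroup (Fin n)) : List ℕ := (w.head :: w.tail).map Fin.val

/-- The subsemigroup of `A⁺ × B⁺`, `A = Fin a`, `B = Fin b`, generated by the listed pairs. -/
def semi (a b : ℕ) (X : List (List ℕ × List ℕ)) :
    Subsemigroup (FreeSemigroup (Fin a) × FreeSemigroup (Fin b)) :=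
  Subsemigroup.closure {p | (code p.1, code p.2) ∈ X}

/-- Every listed pair is a pair of words in `A⁺ × B⁺`. -/
def WF (a b : ℕ) (X : List (List ℕ × List ℕ)) : Prop :=
  ∀ g ∈ X, ∃ u : FreeSemigroup (Fin a), ∃ v : FreeSemigroup (Fin b), g = (code u, code v)

/-- Both coordinate projections of `S` are surjective. -/
def IsSubdirect {A B : Type} [Mul A] [Mul B] (S : Subsemigroup (A × B)) : Prop :=
  (∀ u, ∃ v, (u, v) ∈ S) ∧ ∀ v, ∃ u, (u, v) ∈ S

/-- `S` is a fiber product: `S = {(u,v) : φ u = ψ v}` for surjective homomorphisms onto a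
semigroup `Q`. -/
def IsFiber {A B : Type} [Mul A] [Mul B] (S : Subsemigroup (A × B)) : Prop :=
  ∃ (Q : Type) (_ : Semigroup Q) (φ : A →ₙ* Q) (ψ : B →ₙ* Q),
    Function.Surjective φ ∧ Function.Surjective ψ ∧ ∀ u v, (u, v) ∈ S ↔ φ u = ψ v

end Pool.Agent.X238.Fib
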