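import Pool.Agent.X238.Fib.Core
import Pool.Agent.X238.Fib.Defs

/-!
# Transfer between free semigroups and lists
-/

namespace Pool.Agent.X238.Fib

/-! ## Fiber products and zigzags -/

section general

variable {A B : Type} [Semigroup A] [Semigroup B]

/-- closure under zigzags -/
def Zig (S : Subsemigroup (A × B)) : Prop :=
  ∀ u v u' v', (u, v) ∈ S → (u', v) ∈ S → (u', v') ∈ S → (u, v') ∈ S

theorem zig_of_fiber {S : Subsemigroup (A × B)} (h : IsFiber S) : Zig S := by
  obtain ⟨Q, _, φ, ψ, _, _, h⟩ := h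
  intro u v u' v' h1 h2 h3
  rw [h] at *
  rw [h1, ← h2, h3]

theorem fiber_of_zig {S : Subsemigroup (A × B)} (hS : IsSubdirect S) (h : Zig S) :
    IsFiber S := by
  obtain ⟨s1, s2⟩ := hS
  let c : Con A :=
    { r := fun u u' => ∃ v, (u, v) ∈ S ∧ (u', v) ∈ S
      iseqv := by
        refine ⟨?_, ?_, ?_⟩
        · intro u
          obtain ⟨v, hv⟩ := s1 u
          exact ⟨v, hv, hv⟩
        · rintro u u' ⟨v, h1, h2⟩
          exact ⟨v, h2, h1⟩
        · rintro u u' u'' ⟨v, h1, h2⟩ ⟨v', h3, h4⟩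
          exact ⟨v', h _ _ _ _ h1 h2 h3, h4⟩
      mul' := by
        rintro u u' w w' ⟨v, h1, h2⟩ ⟨v', h3, h4⟩
        exact ⟨v * v', S.mul_mem h1 h3, S.mul_mem h2 h4⟩ }
  have hc : ∀ u u', c u u' ↔ ∃ v, (u, v) ∈ S ∧ (u', v) ∈ S := fun _ _ => Iff.rfl
  choose θ hθ using s2
  let ψ : B →ₙ* c.Quotient :=
    { toFun := fun v => (θ v : c.Quotient)
      map_mul' := by
        intro v v'
        rw [← Con.coe_mul, Con.eq, hc]
        exact ⟨v * v', hθ _, S.mul_mem (hθ v) (hθ v')⟩ }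
  let φ : A →ₙ* c.Quotient :=
    { toFun := fun u => (u : c.Quotient)
      map_mul' := fun u u' => Con.coe_mul u u' }
  have key : ∀ u v, (u, v) ∈ S ↔ φ u = ψ v := by
    intro u v
    change _ ↔ ((u : c.Quotient) = (θ v : c.Quotient))
    rw [Con.eq, hc]
    constructor
    · intro hu
      exact ⟨v, hu, hθ v⟩
    · rintro ⟨v', h1, h2⟩
      exact h _ _ _ _ h1 h2 (hθ v)
  refine ⟨c.Quotient, inferInstance, φ, ψ, ?_, ?_, key⟩
  · intro q
    induction q using Con.induction_on with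
    | H u => exact ⟨u, rfl⟩
  · intro q
    induction q using Con.induction_on with
    | H u =>
      obtain ⟨v, hv⟩ := s1 u
      exact ⟨v, ((key u v).1 hv).symm⟩

theorem fiber_iff_zig {S : Subsemigroup (A × B)} (hS : IsSubdirect S) : IsFiber S ↔ Zig S :=
  ⟨zig_of_fiber, fiber_of_zig hS⟩

end general

/-! ## Codes of words -/

theorem code_mul {n : ℕ} (u v : FreeSemigroup (Fin n)) : code (u * v) = code u ++ code v := by
  simp [code]

theorem code_of {n : ℕ} (i : Fin n) : code (FreeSemigroup.of i) = [i.val] := by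
  simp [code, FreeSemigroup.of]

theorem code_ne_nil {n : ℕ} (u : FreeSemigroup (Fin n)) : code u ≠ [] := by
  simp [code]

theorem code_injective {n : ℕ} : Function.Injective (code (n := n)) := by
  intro u v h
  have h' := List.map_injective_iff.2 Fin.val_injective h
  simp only [List.cons.injEq] at h'
  exact FreeSemigroup.ext h'.1 h'.2

theorem mem_code_lt {n : ℕ} (u : FreeSemigroup (Fin n)) {i : ℕ} (h : i ∈ code u) : i < n := by
  simp only [code, List.mem_map] at h
  obtain ⟨j, _, rfl⟩ := h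
  exact j.2

theorem exists_code {n : ℕ} (w : List ℕ) (h0 : w ≠ []) (hw : ∀ i ∈ w, i < n) :
    ∃ u : FreeSemigroup (Fin n), code u = w := by
  obtain ⟨l, hl⟩ : ∃ l : List (Fin n), l.map Fin.val = w := by
    clear h0
    induction w with
    | nil => exact ⟨[], rfl⟩
    | cons i w ih =>
      obtain ⟨l, hl⟩ := ih (fun i hi => hw i (by simp [hi]))
      exact ⟨⟨i, hw i (by simp)⟩ :: l, by simp [hl]⟩
  cases l with
  | nil => exact absurd hl.symm (by simpa using h0)
  | cons x l => exact ⟨⟨x, l⟩, hl⟩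

/-! ## List forms of the conditions -/

/-- list form of `WF` -/
def WFL (a b : ℕ) (X : List (W × W)) : Prop :=
  ∀ g ∈ X, (g.1 ≠ [] ∧ g.2 ≠ []) ∧ (∀ i ∈ g.1, i < a) ∧ ∀ i ∈ g.2, i < b

/-- list form of `IsSubdirect` -/
def SubL (a b : ℕ) (X : List (W × W)) : Prop :=
  (∀ i < a, ∃ g ∈ X, g.1 = [i]) ∧ ∀ i < b, ∃ g ∈ X, g.2 = [i]

theorem wf_iff {a b : ℕ} {X : List (W × W)} : WF a b X ↔ WFL a b X := by
  constructor
  · intro h g hg
    obtain ⟨u, v, rfl⟩ := h g hg
    exact ⟨⟨code_ne_nil u, code_ne_nil v⟩, fun i hi => mem_code_lt u hi,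
      fun i hi => mem_code_lt v hi⟩
  · intro h g hg
    obtain ⟨⟨h1, h2⟩, h3, h4⟩ := h g hg
    obtain ⟨u, hu⟩ := exists_code g.1 h1 h3
    obtain ⟨v, hv⟩ := exists_code g.2 h2 h4
    exact ⟨u, v, by rw [hu, hv]⟩

theorem rel_of_mem {a b : ℕ} {X : List (W × W)} {p : FreeSemigroup (Fin a) × FreeSemigroup (Fin b)}
    (h : p ∈ semi a b X) : Rel X (code p.1) (code p.2) := by
  induction h using Subsemigroup.closure_induction with
  | mem p hp => exact Rel.single hp
  | mul p q _ _ hp hq =>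
    rw [Prod.fst_mul, Prod.snd_mul, code_mul, code_mul]
    exact hp.mul hq

theorem mem_of_list {a b : ℕ} {X : List (W × W)} (hX : WF a b X) (L : List (W × W)) (hL : L ≠ [])
    (hLX : ∀ g ∈ L, g ∈ X) :
    ∃ p ∈ semi a b X, code p.1 = cat1 L ∧ code p.2 = cat2 L := by
  induction L with
  | nil => exact absurd rfl hL
  | cons g L ih =>
    obtain ⟨u, v, hg⟩ := hX g (hLX g (by simp))
    have hmem : (u, v) ∈ semi a b X := by
      apply Subsemigroup.subset_closure
      change (code u, code v) ∈ X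
      rw [← hg]
      exact hLX g (by simp)
    by_cases h0 : L = []
    · subst h0
      exact ⟨(u, v), hmem, by simp [hg], by simp [hg]⟩
    · obtain ⟨p, hp, e1, e2⟩ := ih h0 (fun g hg => hLX g (by simp [hg]))
      refine ⟨(u, v) * p, (semi a b X).mul_mem hmem hp, ?_, ?_⟩
      · rw [Prod.fst_mul, code_mul, e1]; simp [hg]
      · rw [Prod.snd_mul, code_mul, e2]; simp [hg]

theorem mem_iff {a b : ℕ} {X : List (W × W)} (hX : WF a b X)
    {p : FreeSemigroup (Fin a) × FreeSemigroup (Fin b)} :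
    p ∈ semi a b X ↔ Rel X (code p.1) (code p.2) := by
  constructor
  · exact rel_of_mem
  · rintro ⟨L, hL, hLX, e1, e2⟩
    obtain ⟨q, hq, f1, f2⟩ := mem_of_list hX L hL hLX
    have : p = q := Prod.ext (code_injective (by rw [e1, f1])) (code_injective (by rw [e2, f2]))
    rw [this]; exact hq

theorem code_of_rel {a b : ℕ} {X : List (W × W)} (hX : WF a b X) {u v : W} (h : Rel X u v) :
    ∃ p : FreeSemigroup (Fin a) × FreeSemigroup (Fin b), code p.1 = u ∧ code p.2 = v := by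
  obtain ⟨L, hL, hLX, rfl, rfl⟩ := h
  obtain ⟨p, _, e1, e2⟩ := mem_of_list hX L hL hLX
  exact ⟨p, e1, e2⟩

theorem zig_iff {a b : ℕ} {X : List (W × W)} (hX : WF a b X) : Zig (semi a b X) ↔ ZZ X := by
  constructor
  · intro h u v u' v' h1 h2 h3
    obtain ⟨p, rfl, rfl⟩ := code_of_rel hX h1
    obtain ⟨q, rfl, rfl⟩ := code_of_rel hX h3
    exact (mem_iff hX (p := (p.1, q.2))).1
      (h p.1 p.2 q.1 q.2 ((mem_iff hX (p := (p.1, p.2))).2 h1)
        ((mem_iff hX (p := (q.1, p.2))).2 h2) ((mem_iff hX (p := (q.1, q.2))).2 h3))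
  · intro h u v u' v' h1 h2 h3
    rw [mem_iff hX] at *
    exact h _ _ _ _ h1 h2 h3

theorem single_of_cat1 {X : List (W × W)} (h1 : ∀ g ∈ X, g.1 ≠ []) {L : List (W × W)}
    (hLX : ∀ g ∈ L, g ∈ X) {i : ℕ} (h : cat1 L = [i]) : ∃ g ∈ X, g.1 = [i] := by
  cases L with
  | nil => simp at h
  | cons g L =>
    have hg := h1 g (hLX g (by simp))
    cases hg1 : g.1 with
    | nil => exact absurd hg1 hg
    | cons j w =>
      simp only [cat1_cons, hg1, List.cons_append, List.cons.injEq, List.append_eq_nil_iff] at h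
      exact ⟨g, hLX g (by simp), by rw [hg1, h.1, h.2.1]⟩

theorem single_of_cat2 {X : List (W × W)} (h1 : ∀ g ∈ X, g.2 ≠ []) {L : List (W × W)}
    (hLX : ∀ g ∈ L, g ∈ X) {i : ℕ} (h : cat2 L = [i]) : ∃ g ∈ X, g.2 = [i] := by
  cases L with
  | nil => simp at h
  | cons g L =>
    have hg := h1 g (hLX g (by simp))
    cases hg1 : g.2 with
    | nil => exact absurd hg1 hg
    | cons j w =>
      simp only [cat2_cons, hg1, List.cons_append, List.cons.injEq, List.append_eq_nil_iff] at h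
      exact ⟨g, hLX g (by simp), by rw [hg1, h.1, h.2.1]⟩

theorem sub_iff {a b : ℕ} {X : List (W × W)} (hX : WF a b X) :
    IsSubdirect (semi a b X) ↔ SubL a b X := by
  have hW := wf_iff.1 hX
  have n1 : ∀ g ∈ X, g.1 ≠ [] := fun g hg => (hW g hg).1.1
  have n2 : ∀ g ∈ X, g.2 ≠ [] := fun g hg => (hW g hg).1.2
  constructor
  · rintro ⟨h1, h2⟩
    refine ⟨fun i hi => ?_, fun i hi => ?_⟩
    · obtain ⟨v, hv⟩ := h1 (FreeSemigroup.of ⟨i, hi⟩)
      obtain ⟨L, hL, hLX, e1, e2⟩ := (mem_iff hX).1 hv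
      rw [code_of] at e1
      exact single_of_cat1 n1 hLX e1.symm
    · obtain ⟨u, hu⟩ := h2 (FreeSemigroup.of ⟨i, hi⟩)
      obtain ⟨L, hL, hLX, e1, e2⟩ := (mem_iff hX).1 hu
      rw [code_of] at e2
      exact single_of_cat2 n2 hLX e2.symm
  · rintro ⟨h1, h2⟩
    constructor
    · intro u
      obtain ⟨L, hLX, e⟩ := partner1 (X := X) (code u) (fun i hi => h1 i (mem_code_lt u hi))
      have hL : L ≠ [] := by
        rintro rfl
        exact code_ne_nil u e.symm
      obtain ⟨p, hp, f1, f2⟩ := mem_of_list hX L hL hLX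
      have : p.1 = u := code_injective (by rw [f1, e])
      exact ⟨p.2, by rw [← this]; exact hp⟩
    · intro v
      obtain ⟨L, hLX, e⟩ := partner2 (X := X) (code v) (fun i hi => h2 i (mem_code_lt v hi))
      have hL : L ≠ [] := by
        rintro rfl
        exact code_ne_nil v e.symm
      obtain ⟨p, hp, f1, f2⟩ := mem_of_list hX L hL hLX
      have : p.2 = v := code_injective (by rw [f2, e])
      exact ⟨p.1, by rw [← this]; exact hp⟩

theorem good_of {a b : ℕ} {X : List (W × W)} (h1 : WFL a b X) (h2 : SubL a b X) : Good X where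
  ne1 := fun g hg => (h1 g hg).1.1
  ne2 := fun g hg => (h1 g hg).1.2
  let1 := fun g hg i hi => h2.1 i ((h1 g hg).2.1 i hi)
  let2 := fun g hg i hi => h2.2 i ((h1 g hg).2.2 i hi)

theorem main_iff (a b : ℕ) (X : List (W × W)) :
    (WF a b X ∧ IsSubdirect (semi a b X) ∧ IsFiber (semi a b X)) ↔
      (WFL a b X ∧ SubL a b X ∧ Check X) := by
  constructor
  · rintro ⟨h1, h2, h3⟩
    have h1' := wf_iff.1 h1
    have h2' := (sub_iff h1).1 h2
    exact ⟨h1', h2', (check_iff (good_of h1' h2')).2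
      ((zig_iff h1).1 ((fiber_iff_zig h2).1 h3))⟩
  · rintro ⟨h1', h2', h3⟩
    have h1 := wf_iff.2 h1'
    have h2 := (sub_iff h1).2 h2'
    exact ⟨h1, h2, (fiber_iff_zig h2).2 ((zig_iff h1).2
      ((check_iff (good_of h1' h2')).1 h3))⟩

end Pool.Agent.X238.Fib
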